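import Pool.Agent.H884R3.Final

set_option autoImplicit false

open scoped Manifold ContDiff
open Pool.Agent.H884R3

namespace Pool.Agent.Results.MP_89829e_an.NoSmoothModel

/-- There is an expanding Thurston map `f` of the two-sphere such that no map of the standard
sphere of class `C¹` (in particular no smooth expanding Thurston map) is topologically conjugate
to `f`. -/
theorem result : ∃ f : S2 → S2, IsThurston f ∧ IsExpanding f ∧
    ∀ g : S2 → S2, IsConjugate f g → ¬ ContMDiff (𝓡 2) (𝓡 2) 1 g :=
  ⟨ff, isThurston_ff, isExpanding_ff, no_smooth_model⟩

end Pool.Agent.Results.MP_89829e_an.NoSmoothModel
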